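import Pool.Agent.helper69.SN.SpecA

/-!
Row aPER of the project MP_d2d7b9_gt (sn): relative perturbation.
-/

open scoped Pointwise ContDiff
open MeasureTheory Set Filter Topology

set_option linter.unusedVariables false

namespace Pool.Agent.helper69.SN

open Pool.Agent.helper83.SC

/-- Congruence of a positive semidefinite matrix. -/
theorem aPER_conj {m : ℕ} {A : Mat m} (hA : A.PosSemidef) (g : Mat m) :
    (g * A * g.transpose).PosSemidef := by
  have h := hA.mul_mul_conjTranspose_same g
  rwa [Matrix.conjTranspose_eq_transpose_of_trivial] at h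

/-- The congruence which makes `1 + N` to the unit matrix. -/
theorem aPER_root {m : ℕ} {N : Mat m} (hN : N.PosSemidef) :
    ∃ g h : Mat m, g * h = 1 ∧ h * g = 1 ∧ g * (1 + N) * g.transpose = 1 := by
  have hH := hN.isHermitian
  obtain ⟨U, hUdef⟩ : ∃ U : Mat m, U = (hH.eigenvectorUnitary : Mat m) := ⟨_, rfl⟩
  obtain ⟨d, hd⟩ : ∃ d : Fin m → ℝ, d = hH.eigenvalues := ⟨_, rfl⟩
  have h1 : U.transpose * U = 1 := by
    have := Unitary.coe_star_mul_self hH.eigenvectorUnitary
    rwa [Matrix.star_eq_conjTranspose, Matrix.conjTranspose_eq_transpose_of_trivial, ← hUdef] at this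
  have h2 : U * U.transpose = 1 := by
    have := (Unitary.mem_iff.mp hH.eigenvectorUnitary.2).2
    rwa [Matrix.star_eq_conjTranspose, Matrix.conjTranspose_eq_transpose_of_trivial, ← hUdef] at this
  have h3 : ∀ i, 0 ≤ d i := by
    rw [hd]
    exact hN.eigenvalues_nonneg
  have h4 : N = U * Matrix.diagonal d * U.transpose := by
    conv_lhs => rw [hH.spectral_theorem, Unitary.conjStarAlgAut_apply]
    rw [Matrix.star_eq_conjTranspose, Matrix.conjTranspose_eq_transpose_of_trivial, hUdef, hd]
    rfl
  obtain ⟨w, hw⟩ : ∃ w : Fin m → ℝ, w = fun i => Real.sqrt (1 + d i) := ⟨_, rfl⟩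
  have hw0 : ∀ i, w i ≠ 0 := by
    intro i
    rw [hw]
    have := h3 i
    exact (Real.sqrt_pos.2 (by linarith)).ne'
  have hww : ∀ i, w i * w i = 1 + d i := by
    intro i
    rw [hw]
    have := h3 i
    exact Real.mul_self_sqrt (by linarith)
  refine ⟨Matrix.diagonal (fun i => (w i)⁻¹) * U.transpose, U * Matrix.diagonal w, ?_, ?_, ?_⟩
  · calc Matrix.diagonal (fun i => (w i)⁻¹) * U.transpose * (U * Matrix.diagonal w)
        = Matrix.diagonal (fun i => (w i)⁻¹) * (U.transpose * U) * Matrix.diagonal w := by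
          simp only [Matrix.mul_assoc]
      _ = 1 := by
          rw [h1, Matrix.mul_one, Matrix.diagonal_mul_diagonal]
          have : (fun i => (w i)⁻¹ * w i) = fun _ => (1 : ℝ) := by
            funext i
            exact inv_mul_cancel₀ (hw0 i)
          rw [this, Matrix.diagonal_one]
  · calc U * Matrix.diagonal w * (Matrix.diagonal (fun i => (w i)⁻¹) * U.transpose)
        = U * (Matrix.diagonal w * Matrix.diagonal (fun i => (w i)⁻¹)) * U.transpose := by
          simp only [Matrix.mul_assoc]
      _ = 1 := by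
          rw [Matrix.diagonal_mul_diagonal]
          have : (fun i => w i * (w i)⁻¹) = fun _ => (1 : ℝ) := by
            funext i
            exact mul_inv_cancel₀ (hw0 i)
          rw [this, Matrix.diagonal_one, Matrix.mul_one, h2]
  · have h5 : (1 : Mat m) + N = U * Matrix.diagonal (fun i => 1 + d i) * U.transpose := by
      have e1 : Matrix.diagonal (fun i => 1 + d i) = (1 : Mat m) + Matrix.diagonal d := by
        rw [← Matrix.diagonal_one, Matrix.diagonal_add]
      rw [e1, Matrix.mul_add, Matrix.add_mul, Matrix.mul_one, h2, ← h4]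
    rw [h5, Matrix.transpose_mul, Matrix.transpose_transpose, Matrix.diagonal_transpose]
    calc Matrix.diagonal (fun i => (w i)⁻¹) * U.transpose
          * (U * Matrix.diagonal (fun i => 1 + d i) * U.transpose)
          * (U * Matrix.diagonal (fun i => (w i)⁻¹))
        = Matrix.diagonal (fun i => (w i)⁻¹) * (U.transpose * U)
            * Matrix.diagonal (fun i => 1 + d i) * (U.transpose * U)
            * Matrix.diagonal (fun i => (w i)⁻¹) := by
          simp only [Matrix.mul_assoc]
      _ = 1 := by
          rw [h1, Matrix.mul_one, Matrix.mul_one, Matrix.diagonal_mul_diagonal,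
            Matrix.diagonal_mul_diagonal]
          have : (fun i => (w i)⁻¹ * (1 + d i) * (w i)⁻¹) = fun _ => (1 : ℝ) := by
            funext i
            rw [← hww i]
            have := hw0 i
            field_simp
          rw [this, Matrix.diagonal_one]

/-- The entries of a symmetric matrix between `-c` and `c`. -/
theorem aPER_entry {m : ℕ} {D : Mat m} {c : ℝ} (hs : D.IsSymm)
    (h1 : (c • (1 : Mat m) - D).PosSemidef) (h2 : (c • (1 : Mat m) + D).PosSemidef) (i j : Fin m) :
    |D i j| ≤ c := by
  have hD : D j i = D i j := by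
    have := congrFun (congrFun hs i) j
    simpa [Matrix.transpose_apply] using this
  by_cases hij : i = j
  · subst hij
    have a1 := h1.diag_nonneg (i := i)
    have a2 := h2.diag_nonneg (i := i)
    simp only [Matrix.sub_apply, Matrix.add_apply, Matrix.smul_apply, Matrix.one_apply_eq,
      smul_eq_mul, mul_one] at a1 a2
    rw [abs_le]
    constructor <;> linarith
  · have key : ∀ (X : Mat m), X.PosSemidef → ∀ s : ℝ,
        0 ≤ X i i + s * X i j + s * X j i + s * s * X j j := by
      intro X hX s
      have h := hX.dotProduct_mulVec_nonneg (Pi.single i 1 + Pi.single j s)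
      have e : (star (Pi.single i 1 + Pi.single j s : Fin m → ℝ)) ⬝ᵥ
          X.mulVec (Pi.single i 1 + Pi.single j s) =
          X i i + s * X i j + s * X j i + s * s * X j j := by
        simp only [star_trivial, Matrix.mulVec_add, add_dotProduct, dotProduct_add,
          Matrix.mulVec_single, single_dotProduct]
        simp [Matrix.col_apply]
        ring
      rw [e] at h
      exact h
    have a1 := key _ h1 1
    have a2 := key _ h1 (-1)
    have a3 := key _ h2 1
    have a4 := key _ h2 (-1)
    simp only [Matrix.sub_apply, Matrix.add_apply, Matrix.smul_apply, Matrix.one_apply_eq,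
      Matrix.one_apply_ne hij, Matrix.one_apply_ne (Ne.symm hij), smul_eq_mul, mul_one,
      mul_zero, hD] at a1 a2 a3 a4
    rw [abs_le]
    constructor <;> linarith

theorem aPER_sum {m n : ℕ} (B : Fin n → Mat m) (h : ∀ i, (B i).PosSemidef) :
    (∑ i, B i).PosSemidef := by
  classical
  have : ∀ s : Finset (Fin n), (∑ i ∈ s, B i).PosSemidef := by
    intro s
    induction s using Finset.induction_on with
    | empty => simpa using Matrix.PosSemidef.zero
    | insert a s ha ih =>
      rw [Finset.sum_insert ha]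
      exact (h a).add ih
  exact this _

theorem aPER_of (hCNG : aCNG_stmt) (hPBD : aPBD_stmt) (hCLO : aCLO_stmt) : aPER_stmt := by
  intro m n b δ hb hδ
  have hn0 : (0 : ℝ) ≤ n := Nat.cast_nonneg n
  have hnb : (0 : ℝ) ≤ n * b := mul_nonneg hn0 hb
  obtain ⟨δ', hδ'⟩ : ∃ δ' : ℝ, δ' = δ / (n * b + 1) := ⟨_, rfl⟩
  have hδ'0 : 0 < δ' := by
    rw [hδ']
    positivity
  obtain ⟨η', hη'0, hη'⟩ := hPBD (m := m) (n := n) (1 + n * b) δ' hδ'0
  obtain ⟨η, hηdef⟩ : ∃ η : ℝ, η = η' / (n + 1) := ⟨_, rfl⟩
  have hη0 : 0 < η := by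
    rw [hηdef]
    positivity
  have hηη : (n + 1) * η = η' := by
    rw [hηdef]
    field_simp
  have hηle : η ≤ η' := by
    rw [← hηη]
    nlinarith
  refine ⟨η, hη0, ?_⟩
  intro B B' N hB hB' hBb hBb' hN hd1 hd2 hmem
  obtain ⟨g, h, hgh, hhg, hg1⟩ := aPER_root hN
  have hdet : ∀ x y : Mat m, x * y = 1 → x.det ≠ 0 := by
    intro x y hxy h0
    have := congrArg Matrix.det hxy
    rw [Matrix.det_mul, h0, zero_mul, Matrix.det_one] at this
    exact zero_ne_one this
  -- bounds
  have psd1 : (1 : Mat m).PosSemidef := Matrix.PosSemidef.one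
  have hgN : (g * N * g.transpose).PosSemidef := aPER_conj hN g
  have hgg : (g * g.transpose).PosSemidef := by
    have := aPER_conj psd1 g
    rwa [Matrix.mul_one] at this
  have hsplit : g * g.transpose + g * N * g.transpose = 1 := by
    rw [← hg1, Matrix.mul_add, Matrix.add_mul, Matrix.mul_one]
  have hconj_le : ∀ X : Mat m, (b • (1 : Mat m) - X).PosSemidef →
      (b • (1 : Mat m) - g * X * g.transpose).PosSemidef := by
    intro X hX
    have h1 := aPER_conj hX g
    have h2 : g * (b • (1 : Mat m) - X) * g.transpose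
        = b • (g * g.transpose) - g * X * g.transpose := by
      rw [Matrix.mul_sub, Matrix.sub_mul, Matrix.mul_smul, Matrix.smul_mul, Matrix.mul_one]
    rw [h2] at h1
    have h3 := h1.add (hgN.smul hb)
    have h4 : b • (g * g.transpose) - g * X * g.transpose + b • (g * N * g.transpose)
        = b • (1 : Mat m) - g * X * g.transpose := by
      rw [← hsplit, smul_add]
      abel
    rwa [h4] at h3
  obtain ⟨C, hC⟩ : ∃ C : Fin n → Mat m, C = fun i => g * B i * g.transpose := ⟨_, rfl⟩
  obtain ⟨C', hC'⟩ : ∃ C' : Fin n → Mat m, C' = fun i => g * B' i * g.transpose := ⟨_, rfl⟩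
  have hCp : Psd C := by
    intro i
    rw [hC]
    exact aPER_conj (hB i) g
  have hCp' : Psd C' := by
    intro i
    rw [hC']
    exact aPER_conj (hB' i) g
  have hCb : ∀ i, (b • (1 : Mat m) - C i).PosSemidef := by
    intro i
    rw [hC]
    exact hconj_le _ (hBb i)
  have hCb' : ∀ i, (b • (1 : Mat m) - C' i).PosSemidef := by
    intro i
    rw [hC']
    exact hconj_le _ (hBb' i)
  have hwk : ∀ (X : Mat m) (i : Fin n), (b • (1 : Mat m) - X).PosSemidef →
      ((1 + n * b) • (1 : Mat m) - X).PosSemidef := by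
    intro X i hX
    have hn1 : (1 : ℝ) ≤ n := by
      have : 0 < n := Fin.pos i
      exact_mod_cast this
    have h1 : (0 : ℝ) ≤ 1 + n * b - b := by nlinarith
    have h2 := hX.add (psd1.smul h1)
    have h3 : b • (1 : Mat m) - X + (1 + n * b - b) • (1 : Mat m)
        = (1 + n * b) • (1 : Mat m) - X := by
      rw [sub_smul]
      abel
    rwa [h3] at h2
  -- differences
  have hdif : ∀ X : Mat m, (η • (1 + N) - X).PosSemidef →
      (η • (1 : Mat m) - g * X * g.transpose).PosSemidef := by
    intro X hX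
    have h1 := aPER_conj hX g
    have h2 : g * (η • (1 + N) - X) * g.transpose = η • (1 : Mat m) - g * X * g.transpose := by
      rw [Matrix.mul_sub, Matrix.sub_mul, Matrix.mul_smul, Matrix.smul_mul, hg1]
    rwa [h2] at h1
  have hD1 : ∀ i, (η • (1 : Mat m) - (C i - C' i)).PosSemidef := by
    intro i
    have h1 := hdif _ (hd1 i)
    have h2 : g * (B i - B' i) * g.transpose = C i - C' i := by
      rw [hC, hC', Matrix.mul_sub, Matrix.sub_mul]
    rwa [h2] at h1
  have hD2 : ∀ i, (η • (1 : Mat m) + (C i - C' i)).PosSemidef := by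
    intro i
    have h1 := hdif _ (hd2 i)
    have h2 : η • (1 : Mat m) - g * (B' i - B i) * g.transpose
        = η • (1 : Mat m) + (C i - C' i) := by
      rw [hC, hC', Matrix.mul_sub, Matrix.sub_mul]
      abel
    rwa [h2] at h1
  have hsymC : ∀ i, (C i).IsSymm := by
    intro i
    have := (hCp i).isHermitian
    rwa [Matrix.IsHermitian, Matrix.conjTranspose_eq_transpose_of_trivial] at this
  have hsymC' : ∀ i, (C' i).IsSymm := by
    intro i
    have := (hCp' i).isHermitian
    rwa [Matrix.IsHermitian, Matrix.conjTranspose_eq_transpose_of_trivial] at this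
  obtain ⟨M, hM⟩ : ∃ M : Mat m, M = g * N * g.transpose - ∑ i, C' i := ⟨_, rfl⟩
  have hsumC' : (∑ i, C' i).PosSemidef := aPER_sum C' hCp'
  have hsumCb' : ((n * b) • (1 : Mat m) - ∑ i, C' i).PosSemidef := by
    have h1 := aPER_sum (fun i => b • (1 : Mat m) - C' i) hCb'
    have h2 : ∑ i, (b • (1 : Mat m) - C' i) = (n * b) • (1 : Mat m) - ∑ i, C' i := by
      rw [Finset.sum_sub_distrib, Finset.sum_const, Finset.card_univ, Fintype.card_fin,
        ← Nat.cast_smul_eq_nsmul ℝ, smul_smul]
    rwa [h2] at h1
  have hMsym : M.IsSymm := by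
    have h1 : (g * N * g.transpose).IsSymm := by
      have := hgN.isHermitian
      rwa [Matrix.IsHermitian, Matrix.conjTranspose_eq_transpose_of_trivial] at this
    have h2 : (∑ i, C' i).IsSymm := by
      have := hsumC'.isHermitian
      rwa [Matrix.IsHermitian, Matrix.conjTranspose_eq_transpose_of_trivial] at this
    rw [hM]
    exact h1.sub h2
  have hMb : ∀ i j, |M i j| ≤ 1 + n * b := by
    intro i j
    apply aPER_entry hMsym
    · -- M ≤ 1 ≤ 1 + n b
      have h1 := (hgg.add hsumC').add (psd1.smul hnb)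
      have h2 : g * g.transpose + ∑ i, C' i + (n * b) • (1 : Mat m)
          = (1 + n * b) • (1 : Mat m) - M := by
        rw [add_smul, one_smul, hM]
        nth_rewrite 2 [← hsplit]
        abel
      rwa [h2] at h1
    · have h1 := (hsumCb'.add hgN).add psd1
      have h2 : (n * b) • (1 : Mat m) - ∑ i, C' i + g * N * g.transpose + 1
          = (1 + n * b) • (1 : Mat m) + M := by
        rw [add_smul, one_smul, hM]
        abel
      rwa [h2] at h1
  -- the first membership
  have hmem1 : M + η' • (1 : Mat m) ∈ GG C := by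
    have h1 := hCNG B hB g _ (hdet g h hgh) hmem
    rw [← hC] at h1
    have h2 : g * (N - ∑ i, B i + η • (1 : Mat m)) * g.transpose
        = g * N * g.transpose - ∑ i, C i + η • (g * g.transpose) := by
      rw [Matrix.mul_add, Matrix.add_mul, Matrix.mul_sub, Matrix.sub_mul, Matrix.mul_smul,
        Matrix.smul_mul, Matrix.mul_one, Matrix.mul_sum, Matrix.sum_mul, hC]
    rw [h2] at h1
    have h3 := aPER_sum (fun i => η • (1 : Mat m) + (C i - C' i)) hD2
    have h4 : ∑ i, (η • (1 : Mat m) + (C i - C' i))
        = (n * η) • (1 : Mat m) + (∑ i, C i - ∑ i, C' i) := by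
      rw [Finset.sum_add_distrib, Finset.sum_const, Finset.card_univ, Fintype.card_fin,
        ← Nat.cast_smul_eq_nsmul ℝ, smul_smul, Finset.sum_sub_distrib]
    rw [h4] at h3
    have h5 := h3.add (hgN.smul hη0.le)
    have h6 := (hCLO C hCp).2.1 _ _ h1 h5
    have h7 : g * N * g.transpose - ∑ i, C i + η • (g * g.transpose)
        + ((n * η) • (1 : Mat m) + (∑ i, C i - ∑ i, C' i) + η • (g * N * g.transpose))
        = M + η' • (1 : Mat m) := by
      have e1 : η' • (1 : Mat m) = (n * η) • (1 : Mat m)
          + (η • (g * g.transpose) + η • (g * N * g.transpose)) := by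
        rw [← smul_add, hsplit, ← add_smul]
        congr 1
        rw [← hηη]
        ring
      rw [e1, hM]
      abel
    rwa [h7] at h6
  have hmem2 : M + δ' • (1 : Mat m) ∈ GG C' := by
    refine hη' C C' M hCp hCp' (fun i => hwk _ i (hCb i)) (fun i => hwk _ i (hCb' i)) hMsym hMb
      ?_ hmem1
    intro k i j
    have h1 : |(C k - C' k) i j| ≤ η :=
      aPER_entry ((hsymC k).sub (hsymC' k)) (hD1 k) (hD2 k) i j
    rw [Matrix.sub_apply] at h1
    linarith
  -- back
  have h1 := hCNG C' hCp' h _ (hdet h g hhg) hmem2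
  have hback : ∀ X : Mat m, h * (g * X * g.transpose) * h.transpose = X := by
    intro X
    have e1 : g.transpose * h.transpose = 1 := by
      rw [← Matrix.transpose_mul, hhg, Matrix.transpose_one]
    calc h * (g * X * g.transpose) * h.transpose
        = (h * g) * X * (g.transpose * h.transpose) := by simp only [Matrix.mul_assoc]
      _ = X := by rw [hhg, e1, Matrix.one_mul, Matrix.mul_one]
  have h2 : (fun i => h * C' i * h.transpose) = B' := by
    funext i
    rw [hC']
    exact hback _
  rw [h2] at h1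
  have h3 : h * (M + δ' • (1 : Mat m)) * h.transpose
      = N - ∑ i, B' i + δ' • (1 + N) := by
    have e1 : M + δ' • (1 : Mat m) = g * (N - ∑ i, B' i + δ' • (1 + N)) * g.transpose := by
      rw [Matrix.mul_add, Matrix.add_mul, Matrix.mul_sub, Matrix.sub_mul, Matrix.mul_smul,
        Matrix.smul_mul, hg1, Matrix.mul_sum, Matrix.sum_mul, hM, hC']
    rw [e1]
    exact hback _
  rw [h3] at h1
  obtain ⟨c, hcdef⟩ : ∃ c : ℝ, c = (1 + δ')⁻¹ := ⟨_, rfl⟩
  have hc0 : 0 < c := by
    rw [hcdef]
    positivity
  have hcc : c * (1 + δ') = 1 := by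
    rw [hcdef]
    exact inv_mul_cancel₀ (by positivity)
  have hc1 : c ≤ 1 := by nlinarith
  have h4 := (hCLO B' hB').2.2.2.2.2.1 c _ hc0.le hc1 h1
  have hsumB' : ((n * b) • (1 : Mat m) - ∑ i, B' i).PosSemidef := by
    have h1 := aPER_sum (fun i => b • (1 : Mat m) - B' i) hBb'
    have h2 : ∑ i, (b • (1 : Mat m) - B' i) = (n * b) • (1 : Mat m) - ∑ i, B' i := by
      rw [Finset.sum_sub_distrib, Finset.sum_const, Finset.card_univ, Fintype.card_fin,
        ← Nat.cast_smul_eq_nsmul ℝ, smul_smul]
    rwa [h2] at h1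
  have hδδ : δ' * (n * b + 1) = δ := by
    rw [hδ']
    field_simp
  have h5 : (0 : ℝ) ≤ δ - c * δ' - c * δ' * (n * b) := by
    have : δ - c * δ' - c * δ' * (n * b) = (1 - c) * δ := by
      rw [← hδδ]
      ring
    rw [this]
    exact mul_nonneg (by linarith) hδ.le
  have h6 := (hsumB'.smul (show (0 : ℝ) ≤ c * δ' by positivity)).add (psd1.smul h5)
  have h7 := (hCLO B' hB').2.1 _ _ h4 h6
  have h8 : c • (N - ∑ i, B' i + δ' • (1 + N))
      + ((c * δ') • ((n * b) • (1 : Mat m) - ∑ i, B' i)
        + (δ - c * δ' - c * δ' * (n * b)) • (1 : Mat m))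
      = N - ∑ i, B' i + δ • (1 : Mat m) := by
    have hcd : c * δ' = 1 - c := by linarith
    ext i j
    simp only [Matrix.add_apply, Matrix.sub_apply, Matrix.smul_apply, smul_eq_mul]
    obtain ⟨x, hx⟩ : ∃ x : ℝ, x = (∑ i, B' i) i j := ⟨_, rfl⟩
    obtain ⟨y, hy⟩ : ∃ y : ℝ, y = (1 : Mat m) i j := ⟨_, rfl⟩
    rw [← hx, ← hy]
    linear_combination (N i j) * hcc - x * hcc
  rwa [h8] at h7

end Pool.Agent.helper69.SN
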